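import Mathlib

/-! # MP_5ee2d0_ag, fourfolds: numerical dimension at least three -/

namespace Pool.Agent.H60.FF

/-- The cohomology of the multiples of a nef divisor `L` of a smooth projective fourfold `X` with
`K_X ~ 0` and `H^1(X, O) = 0`. `Cube` says that `L^3` is not numerically trivial, `Semi` that `L` is
semiample. -/
structure Multiples (Cube Semi : Prop) where
  /-- the dimension of `H^i(X, O(m L))` -/
  h : Fin 5 → ℕ → ℕ
  /-- the numbers `L^4` and `c_2(X).L^2` -/
  d : ℤ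
  c : ℤ
  /-- `L` is nef -/
  d_nonneg : 0 ≤ d
  /-- Miyaoka -/
  c_nonneg : 0 ≤ c
  /-- Riemann-Roch theorem -/
  rr : ∀ m : ℕ, 24 * ∑ i : Fin 5, (-1 : ℤ) ^ (i : ℕ) * h i m =
    m ^ 4 * d + m ^ 2 * c + 24 * ∑ i : Fin 5, (-1 : ℤ) ^ (i : ℕ) * h i 0
  /-- `X` is connected -/
  one : h 0 0 = 1
  /-- `H^1(X, O) = 0` -/
  reg : h 1 0 = 0
  /-- Serre duality -/
  serre : ∀ i, h (Fin.rev i) 0 = h i 0
  /-- Kawamata-Viehweg vanishing theorem, the numerical dimension of `L` is at least three -/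
  kv : Cube → ∀ m, 0 < m → ∀ i, 2 ≤ i → h i m = 0
  /-- Let `D` be an effective divisor in the class `m L`, and `ε > 0` small. `K_X + ε D` is nef, `(X, ε D)`
  is klt and the Kodaira dimension is at least `1 = dim X - 3`, so it is semiample (Kawamata 1985 and
  log abundance for threefolds, Keel, Matsuki and McKernan; Fukuda 2002). -/
  fukuda : ∀ m, 0 < m → 2 ≤ h 0 m → Semi

namespace Multiples

variable {Cube Semi : Prop} (X : Multiples Cube Semi)

include X

/-- The Euler characteristic of `m L` is at least two, for all `m ≥ 0`. -/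
theorem two_le_chi (m : ℕ) : 2 ≤ ∑ i : Fin 5, (-1 : ℤ) ^ (i : ℕ) * X.h i m := by
  have h1 := X.rr m
  have h2 : 2 ≤ ∑ i : Fin 5, (-1 : ℤ) ^ (i : ℕ) * X.h i 0 := by
    have e3 : X.h 3 0 = X.h 1 0 := X.serre 1
    have e4 : X.h 4 0 = X.h 0 0 := X.serre 0
    simp only [Fin.sum_univ_five]
    rw [e3, e4, X.one, X.reg]
    norm_num
    omega
  have h3 : 0 ≤ (m : ℤ) ^ 4 * X.d := mul_nonneg (by positivity) X.d_nonneg
  have h4 : 0 ≤ (m : ℤ) ^ 2 * X.c := mul_nonneg (by positivity) X.c_nonneg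
  linarith

/-- `H^i(X, O(m L))` is not zero for an even number `i`. -/
theorem exists_even (m : ℕ) : X.h 0 m ≠ 0 ∨ X.h 2 m ≠ 0 ∨ X.h 4 m ≠ 0 := by
  have h1 := X.two_le_chi m
  simp only [Fin.sum_univ_five] at h1
  norm_num at h1
  omega

/-- If `L^3` is not numerically trivial then `L` is semiample. -/
theorem semi (hc : Cube) : Semi := by
  have h1 := X.two_le_chi 1
  have e2 := X.kv hc 1 one_pos 2 le_rfl
  have e3 := X.kv hc 1 one_pos 3 (by decide)
  have e4 := X.kv hc 1 one_pos 4 (by decide)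
  simp only [Fin.sum_univ_five] at h1
  rw [e2, e3, e4] at h1
  norm_num at h1
  exact X.fukuda 1 one_pos (by omega)

end Multiples

end Pool.Agent.H60.FF
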